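import Pool.Agent.Tus.L_tusnady2
import Pool.Agent.H460BZ.Upper

namespace Pool.Agent.Results.MP_e00059_co.TusnadyExactOrder

open Classical in
/-- Discrepancy of a finite point set `P ⊂ ℝ^d` with respect to closed axis-parallel boxes: the
least natural number `m` such that some colouring `χ : P → {-1, +1}` satisfies
`|∑_{p ∈ P ∩ B} χ(p)| ≤ m` for every box `B = [a, b]`, `a ≤ b`, i.e.
`min_χ max_B |∑_{p ∈ P ∩ B} χ(p)|`. -/
noncomputable def disc {d : ℕ} (P : Finset (Fin d → ℝ)) : ℕ :=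
  sInf {m : ℕ | ∃ χ : (Fin d → ℝ) → ℤ, (∀ p ∈ P, χ p = 1 ∨ χ p = -1) ∧
    ∀ a b : Fin d → ℝ, a ≤ b → |∑ p ∈ P with p ∈ Set.Icc a b, χ p| ≤ m}

/-- `d_n^{(d)}`: the maximum of `disc P` over all `n`-point sets `P ⊂ ℝ^d`. -/
noncomputable def dn (d n : ℕ) : ℕ :=
  sSup {m : ℕ | ∃ P : Finset (Fin d → ℝ), P.card = n ∧ m = disc P}

/-- the upper bound: every `n`-point set has discrepancy `O((log n)^(d - 1/2))` -/
theorem disc_le (D : ℕ) : ∃ C : ℝ, 0 < C ∧ ∀ n : ℕ, 2 ≤ n → ∀ P : Finset (Fin (D+1) → ℝ),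
    P.card = n → disc P ≤ ⌊C * (Real.log n)^((D:ℝ) + 1/2)⌋₊ := by
  classical
  refine ⟨2^(D+1) * 100 * 3^D * Real.sqrt (4*D+24), by positivity, fun n hn P hP => ?_⟩
  obtain ⟨χ, hχ, hb⟩ := Pool.Agent.H460BZ.upper_P2 D n hn P hP
  refine Nat.sInf_le ⟨χ, fun p _ => hχ p, fun a b hab => ?_⟩
  have h := hb a b hab
  rw [Int.abs_eq_natAbs]
  have h2 : ((∑ p ∈ P with p ∈ Set.Icc a b, χ p).natAbs : ℝ) ≤
      (2^(D+1) * 100 * 3^D * Real.sqrt (4*D+24)) * (Real.log n)^((D:ℝ)+1/2) := by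
    rw [Nat.cast_natAbs]
    push_cast at h ⊢
    convert h using 2
  have h3 := Nat.le_floor h2
  convert (Int.ofNat_le.mpr h3) using 2

/-- **The order of growth in Tusnády's problem, in every dimension.** For every `d ≥ 2` there are
constants `0 < c ≤ C` with `c (log n)^(d - 1/2) ≤ d_n^{(d)} ≤ C (log n)^(d - 1/2)` for all large
`n`; in particular `d_n^{(2)}` has the exact order `(log n)^(3/2)`. -/
theorem result (d : ℕ) (hd : 2 ≤ d) : ∃ c C : ℝ, 0 < c ∧ 0 < C ∧ ∃ N0 : ℕ, ∀ n : ℕ, N0 ≤ n →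
    c * (Real.log n)^((d:ℝ) - 1/2) ≤ dn d n ∧ (dn d n : ℝ) ≤ C * (Real.log n)^((d:ℝ) - 1/2) := by
  obtain ⟨c, hc, N0, hN0⟩ := Tus.tusnady2 d hd
  obtain ⟨D, rfl⟩ : ∃ D, d = D + 1 := ⟨d - 1, by omega⟩
  obtain ⟨C, hC, hup⟩ := disc_le D
  refine ⟨c, C, hc, hC, max N0 2, fun n hn => ⟨hN0 n (le_trans (le_max_left _ _) hn), ?_⟩⟩
  have hn2 : 2 ≤ n := le_trans (le_max_right _ _) hn
  have he : (((D+1:ℕ):ℝ) - 1/2) = (D:ℝ) + 1/2 := by push_cast; ring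
  rw [he]
  have h1 : dn (D+1) n ≤ ⌊C * (Real.log n)^((D:ℝ) + 1/2)⌋₊ := by
    refine csSup_le' ?_
    rintro m ⟨P, hP, rfl⟩
    exact hup n hn2 P hP
  have hL : 0 ≤ Real.log n := Real.log_nonneg (by exact_mod_cast (by omega : 1 ≤ n))
  exact (Nat.cast_le.mpr h1).trans (Nat.floor_le (by positivity))

end Pool.Agent.Results.MP_e00059_co.TusnadyExactOrder
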